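import Mathlib

/-! Abstract real linear algebra behind the perturbation argument. -/

namespace Pool.Agent.H63Z.QODE

open Module

variable {V : Type} [AddCommGroup V] [Module ℝ V]

lemma range_of_orth [FiniteDimensional ℝ V] (B : V →ₗ[ℝ] V →ₗ[ℝ] ℝ)
    (hpos : ∀ v, B v v = 0 → v = 0) (T : V →ₗ[ℝ] V)
    (hT : ∀ x y, B (T x) y = B x (T y)) (z : V) (hz : ∀ k, T k = 0 → B k z = 0) :
    ∃ w, T w = z := by
  have hdis : Disjoint (LinearMap.range T) (LinearMap.ker T) := by
    rw [Submodule.disjoint_def]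
    rintro v ⟨w, rfl⟩ hv
    apply hpos
    rw [hT, LinearMap.mem_ker.1 hv, map_zero]
  have htop : LinearMap.range T ⊔ LinearMap.ker T = ⊤ :=
    Submodule.eq_top_of_disjoint _ _ (by rw [LinearMap.finrank_range_add_finrank_ker]) hdis
  have hz' : z ∈ LinearMap.range T ⊔ LinearMap.ker T := by rw [htop]; trivial
  obtain ⟨a, ⟨w, rfl⟩, k, hk, hsum⟩ := Submodule.mem_sup.1 hz'
  have hk0 : T k = 0 := LinearMap.mem_ker.1 hk
  have h1 := hz k hk0
  rw [← hsum, map_add, ← hT, hk0, map_zero, LinearMap.zero_apply, zero_add] at h1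
  refine ⟨w, ?_⟩
  rw [← hsum, hpos k h1, add_zero]

/-- The data of a real inner product with a compatible complex structure. -/
structure CS (V : Type) [AddCommGroup V] [Module ℝ V] where
  B : V →ₗ[ℝ] V →ₗ[ℝ] ℝ
  J : V →ₗ[ℝ] V
  symm : ∀ x y, B x y = B y x
  nonneg : ∀ x, 0 ≤ B x x
  pos : ∀ x, B x x = 0 → x = 0
  JJ : ∀ x, J (J x) = -x
  skew : ∀ x y, B (J x) y = -B x (J y)

namespace CS

variable (S : CS V)

lemma BJ_self (x : V) : S.B (S.J x) x = 0 := by
  have h := S.skew x x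
  rw [S.symm x (S.J x)] at h
  linarith

lemma B_selfJ (x : V) : S.B x (S.J x) = 0 := by rw [S.symm]; exact S.BJ_self x

lemma BJJ (x y : V) : S.B (S.J x) (S.J y) = S.B x y := by
  rw [S.skew, S.JJ, map_neg, neg_neg]

/-- projection of `b` away from the complex line of `x`, scaled by `|x|²` -/
def cvec (x b : V) : V := S.B x x • b - S.B x b • x - S.B (S.J x) b • S.J x

/-- complex rank one operator of `c` -/
def rk (c y : V) : V := S.B c y • c + S.B (S.J c) y • S.J c

lemma B_cvec_x (x b : V) : S.B (S.cvec x b) x = 0 := by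
  simp only [cvec, map_sub, map_smul, LinearMap.sub_apply, LinearMap.smul_apply, smul_eq_mul,
    S.BJ_self]
  rw [S.symm b x]; ring

lemma B_cvec_Jx (x b : V) : S.B (S.cvec x b) (S.J x) = 0 := by
  simp only [cvec, map_sub, map_smul, LinearMap.sub_apply, LinearMap.smul_apply, smul_eq_mul,
    S.B_selfJ, S.BJJ]
  rw [S.symm b (S.J x)]; ring

lemma rk_cvec_x (x b : V) : S.rk (S.cvec x b) x = 0 := by
  simp only [rk]
  rw [S.B_cvec_x, S.skew, S.B_cvec_Jx]; simp

lemma B_cvec (x b y : V) : S.B (S.cvec x b) y = S.B b (S.cvec x y) := by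
  simp only [cvec, map_sub, map_smul, LinearMap.sub_apply, LinearMap.smul_apply, smul_eq_mul]
  rw [S.symm b x, S.symm b (S.J x)]; ring

lemma B_rk (c x y : V) : S.B (S.rk c x) y = S.B x (S.rk c y) := by
  simp only [rk, map_add, map_smul, LinearMap.add_apply, LinearMap.smul_apply, smul_eq_mul]
  rw [S.symm x c, S.symm x (S.J c)]; ring

lemma B_rk_self (c y : V) : S.B y (S.rk c y) = S.B c y ^ 2 + S.B (S.J c) y ^ 2 := by
  simp only [rk, map_add, map_smul, smul_eq_mul]
  rw [S.symm y c, S.symm y (S.J c)]; ring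

/-- The key solvability statement. -/
lemma solve [FiniteDimensional ℝ V] {ι : Type} [Fintype ι] (M H : V →ₗ[ℝ] V)
    (hM : ∀ x y, S.B (M x) y = S.B x (M y)) (hMJ : ∀ x, M (S.J x) = S.J (M x))
    (b : ι → V) (hb : ∀ s, M (b s) = 0)
    (hspan : ∀ y, M y = 0 → (∀ s, S.B (b s) y = 0) → y = 0)
    (x : V) (hx : M x = 0) (hx0 : x ≠ 0) (δ : ℝ) (hδ : 0 < δ)
    (hH : ∀ y, H y = δ • ∑ s, S.rk (S.cvec x (b s)) y)
    (z : V) (hz1 : S.B x z = 0) (hz2 : S.B (S.J x) z = 0) :
    ∃ w, M w + H w = z := by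
  have hc : ∀ y, M y = 0 → M (S.cvec x y) = 0 := by
    intro y hy
    simp [cvec, hy, hx, hMJ]
  have hHK : ∀ y, M (H y) = 0 := by
    intro y
    rw [hH, map_smul, map_sum]
    simp [rk, hc _ (hb _), hMJ]
  have hHs : ∀ u v, S.B (H u) v = S.B u (H v) := by
    intro u v
    rw [hH, hH]
    simp only [map_smul, map_sum, LinearMap.smul_apply, LinearMap.sum_apply, S.B_rk]
  have hxx : S.B x x ≠ 0 := fun h => hx0 (S.pos x h)
  obtain ⟨w, hw⟩ := range_of_orth S.B S.pos (M + H) (by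
    intro u v
    simp only [LinearMap.add_apply, map_add, hM, hHs]) z (by
    intro k hk
    simp only [LinearMap.add_apply] at hk
    have hMk : M k = 0 := by
      apply S.pos
      have h1 : M k = -H k := eq_neg_of_add_eq_zero_left hk
      rw [hM]
      rw [h1, map_neg, hHK]; simp
    have hHk : H k = 0 := by rw [hMk, zero_add] at hk; exact hk
    have hsum : ∑ s, (S.B (S.cvec x (b s)) k ^ 2 + S.B (S.J (S.cvec x (b s))) k ^ 2) = 0 := by
      have h1 : S.B k (H k) = 0 := by rw [hHk, map_zero]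
      rw [hH, map_smul, map_sum] at h1
      simp only [S.B_rk_self, smul_eq_mul] at h1
      exact (mul_eq_zero.1 h1).resolve_left hδ.ne'
    have hall : ∀ s, S.B (S.cvec x (b s)) k = 0 := by
      intro s
      have h1 := (Finset.sum_eq_zero_iff_of_nonneg (fun s _ => by positivity)).1 hsum s
        (Finset.mem_univ s)
      nlinarith [sq_nonneg (S.B (S.cvec x (b s)) k), sq_nonneg (S.B (S.J (S.cvec x (b s))) k)]
    have hk0 : S.cvec x k = 0 := hspan _ (hc k hMk) (fun s => by rw [← S.B_cvec]; exact hall s)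
    have h2 : S.B (S.cvec x k) z = 0 := by rw [hk0]; simp
    simp only [cvec, map_sub, map_smul, LinearMap.sub_apply, LinearMap.smul_apply, smul_eq_mul,
      hz1, hz2, mul_zero, sub_zero] at h2
    exact (mul_eq_zero.1 h2).resolve_left hxx)
  exact ⟨w, hw⟩

lemma BJ_sym (D : V →ₗ[ℝ] V) (hD : ∀ x y, S.B (D x) y = S.B x (D y))
    (hDJ : ∀ x, D (S.J x) = S.J (D x)) (x : V) : S.B (S.J x) (D x) = 0 := by
  have h1 : S.B (S.J x) (D x) = S.B (D (S.J x)) x := (hD _ _).symm
  rw [hDJ] at h1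
  have h2 := S.skew (D x) x
  rw [S.symm (D x) (S.J x)] at h2
  linarith

/-- a semidefinite form with an isotropic vector has it in the radical -/
lemma radical (D : V →ₗ[ℝ] V) (hD : ∀ x y, S.B (D x) y = S.B x (D y)) (M : V →ₗ[ℝ] V)
    (hq : ∀ y, M y = 0 → 0 ≤ S.B y (D y)) (x : V) (hx : M x = 0) (h0 : S.B x (D x) = 0)
    (y : V) (hy : M y = 0) : S.B y (D x) = 0 := by
  have key : ∀ t : ℝ, 0 ≤ S.B y (D y) * (t * t) + 2 * S.B y (D x) * t + 0 := by
    intro t
    have h := hq (x + t • y) (by simp [hx, hy])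
    simp only [map_add, map_smul, LinearMap.add_apply, LinearMap.smul_apply, smul_eq_mul, h0] at h
    have h2 : S.B x (D y) = S.B y (D x) := by rw [← hD, S.symm]
    rw [h2] at h
    nlinarith
  have hd := discrim_le_zero key
  simp only [discrim] at hd
  nlinarith [sq_nonneg (S.B y (D x))]

end CS

lemma exists_spanning [FiniteDimensional ℝ V] (B : V →ₗ[ℝ] V →ₗ[ℝ] ℝ)
    (hpos : ∀ v, B v v = 0 → v = 0) (M : V →ₗ[ℝ] V) :
    ∃ (m : ℕ) (b : Fin m → V), (∀ s, M (b s) = 0) ∧
      ∀ y, M y = 0 → (∀ s, B (b s) y = 0) → y = 0 := by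
  let K := LinearMap.ker M
  let e := Module.finBasis ℝ K
  refine ⟨_, fun s => (e s : V), fun s => (e s).2, ?_⟩
  intro y hy h
  apply hpos
  have h1 : (⟨y, hy⟩ : K) = ∑ s, e.repr ⟨y, hy⟩ s • e s := (e.sum_repr _).symm
  have h2 : y = ∑ s, e.repr ⟨y, hy⟩ s • (e s : V) := by
    have := congrArg K.subtype h1
    rw [map_sum] at this
    exact this
  conv_lhs => arg 1; arg 2; rw [h2]
  simp [h]

end Pool.Agent.H63Z.QODE
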