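import Mathlib

/-!
# Linear ODE systems with quaternion coefficients: definitions

The system is `A l x^(l) + ... + A 1 x' + A 0 x = 0`; only the coefficients `A 0, ..., A l`
of the sequence `A` play a role.
-/

namespace Pool.Agent.H63Z.QODE

open Matrix

/-- Square quaternion matrices indexed by a finite type. -/
abbrev QMat (m : Type) := Matrix m m (Quaternion ℝ)

/-- The symmetry pattern: `A k` is hermitian for even `k ≤ l`, skewhermitian for odd `k ≤ l`. -/
def Admissible {n : ℕ} (l : ℕ) (A : ℕ → QMat (Fin n)) : Prop :=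
  ∀ k ≤ l, (Even k → (A k)ᴴ = A k) ∧ (Odd k → (A k)ᴴ = -A k)

/-- `x` is an `l` times continuously differentiable solution of the system on all of `ℝ`. -/
def IsSolution {n : ℕ} (l : ℕ) (A : ℕ → QMat (Fin n)) (x : ℝ → Fin n → Quaternion ℝ) : Prop :=
  ContDiff ℝ l x ∧ ∀ t : ℝ, ∑ k ∈ Finset.range (l + 1), A k *ᵥ iteratedDeriv k x t = 0

/-- Every solution of the system is bounded on `ℝ`. -/
def BoundedSystem {n : ℕ} (l : ℕ) (A : ℕ → QMat (Fin n)) : Prop :=
  ∀ x : ℝ → Fin n → Quaternion ℝ, IsSolution l A x → ∃ M : ℝ, ∀ t : ℝ, ‖x t‖ ≤ M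

/-- Every system with the same symmetry pattern whose coefficients are entrywise close to those
of `A` is bounded. -/
def StablyBounded {n : ℕ} (l : ℕ) (A : ℕ → QMat (Fin n)) : Prop :=
  ∃ ε : ℝ, 0 < ε ∧ ∀ A' : ℕ → QMat (Fin n), Admissible l A' →
    (∀ k ≤ l, ∀ a b : Fin n, ‖A' k a b - A k a b‖ < ε) → BoundedSystem l A'

/-- The companion matrix: identity blocks on the block superdiagonal, last block row
`(- (A l)⁻¹ A 0, ..., - (A l)⁻¹ A (l - 1))`, zero blocks elsewhere (blocks indexed from `0`). -/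
noncomputable def companion {n : ℕ} (l : ℕ) (A : ℕ → QMat (Fin n)) : QMat (Fin l × Fin n) :=
  fun p q =>
    if (p.1 : ℕ) + 1 = l then (-(Ring.inverse (A l) * A q.1)) p.2 q.2
    else if (q.1 : ℕ) = p.1 + 1 then (1 : QMat (Fin n)) p.2 q.2 else 0

/-- The matrix `G`: with blocks indexed from `0`, the `(i, j)` block is `(-1)^i A (i + j + 1)` if
`i + j + 1 ≤ l` and zero otherwise. -/
noncomputable def gmat {n : ℕ} (l : ℕ) (A : ℕ → QMat (Fin n)) : QMat (Fin l × Fin n) :=
  fun p q =>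
    if (p.1 : ℕ) + q.1 + 1 ≤ l then (((-1 : ℝ) ^ (p.1 : ℕ)) • A (p.1 + q.1 + 1)) p.2 q.2 else 0

/-- `lam` is a (right) eigenvalue of `C`: `C v = v lam` for some nonzero `v`. -/
def IsEigenvalue {m : Type} [Fintype m] (C : QMat m) (lam : Quaternion ℝ) : Prop :=
  ∃ v : m → Quaternion ℝ, v ≠ 0 ∧ C *ᵥ v = fun i => v i * lam

open Classical in
/-- The matrix `p(C)`, where `p(t) = t - lam` for real `lam` and
`p(t) = t ^ 2 - 2 Re(lam) t + |lam| ^ 2` otherwise. -/
noncomputable def minPolyAt {m : Type} [Fintype m] [DecidableEq m] (C : QMat m)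
    (lam : Quaternion ℝ) : QMat m :=
  if lam.im = 0 then C - lam.re • (1 : QMat m)
  else C ^ 2 - (2 * lam.re) • C + (‖lam‖ ^ 2) • (1 : QMat m)

/-- The root subspace `ker p(C) ^ N` of the `N × N` matrix `C` for the class of `lam`. -/
def rootSubspace {m : Type} [Fintype m] [DecidableEq m] (C : QMat m) (lam : Quaternion ℝ) :
    Set (m → Quaternion ℝ) :=
  {v | (minPolyAt C lam ^ Fintype.card m) *ᵥ v = 0}

/-- `v* K v` is a positive real number for every nonzero `v ∈ S`. -/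
def PositiveOn {m : Type} [Fintype m] (K : QMat m) (S : Set (m → Quaternion ℝ)) : Prop :=
  ∀ v ∈ S, v ≠ 0 → ∃ r : ℝ, 0 < r ∧ star v ⬝ᵥ (K *ᵥ v) = (r : Quaternion ℝ)

/-- `v* K v` is a negative real number for every nonzero `v ∈ S`. -/
def NegativeOn {m : Type} [Fintype m] (K : QMat m) (S : Set (m → Quaternion ℝ)) : Prop :=
  ∀ v ∈ S, v ≠ 0 → ∃ r : ℝ, r < 0 ∧ star v ⬝ᵥ (K *ᵥ v) = (r : Quaternion ℝ)

end Pool.Agent.H63Z.QODE
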