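import Mathlib
import Pool.Agent.H63Z.QODE.Defs
import Pool.Agent.H63Z.QODE.Core

/-! Quaternion vectors as a real inner product space; explicit solutions of the system. -/

namespace Pool.Agent.H63Z.QODE

open Matrix

abbrev Q := Quaternion ℝ

section
variable {m : Type}

/-- right multiplication of a vector by a quaternion -/
noncomputable def rm (q : Q) : (m → Q) →ₗ[ℝ] (m → Q) where
  toFun v := fun a => v a * q
  map_add' u v := by ext1 a; simp [add_mul]
  map_smul' c v := by ext1 a; simp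

@[simp] lemma rm_apply (q : Q) (v : m → Q) (a : m) : rm q v a = v a * q := rfl

lemma rm_rm (p q : Q) (v : m → Q) : rm p (rm q v) = rm (q * p) v := by
  ext1 a; simp [mul_assoc]

@[simp] lemma rm_one (v : m → Q) : rm 1 v = v := by ext1 a; simp

lemma rm_neg (q : Q) (v : m → Q) : rm (-q) v = -rm q v := by ext1 a; simp

lemma rm_smul (c : ℝ) (q : Q) (v : m → Q) : rm (c • q) v = c • rm q v := by ext1 a; simp

lemma rm_coe (c : ℝ) (v : m → Q) : rm (c : Q) v = c • v := by
  ext1 a; simp [Quaternion.mul_coe_eq_smul]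

lemma rm_eq_zero {q : Q} (hq : q ≠ 0) {v : m → Q} (h : rm q v = 0) : v = 0 := by
  ext1 a
  have := congrFun h a
  simpa [hq] using this

variable [Fintype m]

/-- left multiplication of a vector by a matrix -/
noncomputable def lm {m' : Type} (A : Matrix m' m Q) : (m → Q) →ₗ[ℝ] (m' → Q) where
  toFun v := A *ᵥ v
  map_add' u v := mulVec_add _ _ _
  map_smul' c v := by simp [mulVec_smul]

lemma lm_apply {m' : Type} (A : Matrix m' m Q) (v : m → Q) : lm A v = A *ᵥ v := rfl

lemma mulVec_rm {m' : Type} (A : Matrix m' m Q) (q : Q) (v : m → Q) :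
    A *ᵥ rm q v = rm q (A *ᵥ v) := by
  ext1 a; simp [mulVec, dotProduct, Finset.sum_mul, mul_assoc]

/-- the real inner product `Re (x* y)` -/
noncomputable def ip : (m → Q) →ₗ[ℝ] (m → Q) →ₗ[ℝ] ℝ :=
  LinearMap.mk₂ ℝ (fun x y => (star x ⬝ᵥ y).re)
    (by intro a b c; simp [add_dotProduct])
    (by
      intro c a b
      have : star (c • a) = c • star a := by ext1 i; simp
      rw [this, smul_dotProduct]; simp)
    (by intro a b c; simp [dotProduct_add])
    (by intro c a b; simp [dotProduct_smul])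

lemma ip_apply (x y : m → Q) : ip x y = (star x ⬝ᵥ y).re := rfl

lemma re_sum {ι : Type} (s : Finset ι) (f : ι → Q) : (∑ i ∈ s, f i).re = ∑ i ∈ s, (f i).re :=
  map_sum (QuaternionAlgebra.reₗ (-1 : ℝ) 0 (-1)) f s

lemma ip_eq (x y : m → Q) : ip x y = ∑ a, (star (x a) * y a).re := by
  rw [ip_apply, dotProduct, re_sum]; rfl

lemma ip_symm (x y : m → Q) : ip x y = ip y x := by
  simp only [ip_eq]
  refine Finset.sum_congr rfl fun a _ => ?_
  simp [Quaternion.re_mul]; ring

lemma ip_self (x : m → Q) : ip x x = ∑ a, Quaternion.normSq (x a) := by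
  simp only [ip_eq]
  refine Finset.sum_congr rfl fun a _ => ?_
  rw [Quaternion.star_mul_self]; simp

lemma ip_nonneg (x : m → Q) : 0 ≤ ip x x := by
  rw [ip_self]; exact Finset.sum_nonneg fun a _ => Quaternion.normSq_nonneg

lemma ip_pos (x : m → Q) (h : ip x x = 0) : x = 0 := by
  rw [ip_self] at h
  ext1 a
  exact Quaternion.normSq_eq_zero.1
    ((Finset.sum_eq_zero_iff_of_nonneg fun a _ => Quaternion.normSq_nonneg).1 h a
      (Finset.mem_univ a))

lemma re_mul_comm (p q : Q) : (p * q).re = (q * p).re := by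
  simp [Quaternion.re_mul]; ring

lemma ip_rm (q : Q) (x y : m → Q) : ip (rm q x) y = ip x (rm (star q) y) := by
  simp only [ip_eq, rm_apply, star_mul]
  refine Finset.sum_congr rfl fun a _ => ?_
  rw [mul_assoc, re_mul_comm, mul_assoc]

lemma star_dot_mulVec (A : Matrix m m Q) (x y : m → Q) :
    star (A *ᵥ x) ⬝ᵥ y = star x ⬝ᵥ (Aᴴ *ᵥ y) := by
  rw [star_mulVec, dotProduct_mulVec]

lemma ip_mulVec (A : Matrix m m Q) (x y : m → Q) : ip (A *ᵥ x) y = ip x (Aᴴ *ᵥ y) := by
  rw [ip_apply, ip_apply, star_dot_mulVec]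

/-- the unit `i` -/
def qi : Q := ⟨0, 1, 0, 0⟩
@[simp] lemma qi_re : qi.re = 0 := rfl
@[simp] lemma qi_imI : qi.imI = 1 := rfl
@[simp] lemma qi_imJ : qi.imJ = 0 := rfl
@[simp] lemma qi_imK : qi.imK = 0 := rfl
/-- the unit `j` -/
def qj : Q := ⟨0, 0, 1, 0⟩
@[simp] lemma qj_re : qj.re = 0 := rfl
@[simp] lemma qj_imI : qj.imI = 0 := rfl
@[simp] lemma qj_imJ : qj.imJ = 1 := rfl
@[simp] lemma qj_imK : qj.imK = 0 := rfl

lemma qi_mul_qi : qi * qi = -1 := by ext <;> simp <;> rfl
lemma star_qi : star qi = -qi := by ext <;> simp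
lemma qj_star_qj : qj * star qj = 1 := by ext <;> simp <;> rfl
lemma qj_ne : qj ≠ 0 := by
  intro h
  have h2 : qj.imJ = (0 : Q).imJ := by rw [h]
  exact one_ne_zero (α := ℝ) h2
lemma qi_qj : qi * qj = -(qj * qi) := by ext <;> simp

/-- the complex structure given by right multiplication by `i` -/
noncomputable def cs (m : Type) [Fintype m] : CS (m → Q) where
  B := ip
  J := rm qi
  symm := ip_symm
  nonneg := ip_nonneg
  pos := ip_pos
  JJ x := by rw [rm_rm, qi_mul_qi, rm_neg, rm_one]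
  skew x y := by rw [ip_rm, star_qi, rm_neg, map_neg]

/-- the hermitian matrix `c c*` -/
noncomputable def P0 (c : m → Q) : Matrix m m Q := fun a b => c a * star (c b)
/-- the skewhermitian matrix `c i c*` -/
noncomputable def P1 (c : m → Q) : Matrix m m Q := fun a b => c a * qi * star (c b)

omit [Fintype m] in
lemma P0_herm (c : m → Q) : (P0 c)ᴴ = P0 c := by
  ext1 a b; simp [P0, conjTranspose_apply]

omit [Fintype m] in
lemma P1_skew (c : m → Q) : (P1 c)ᴴ = -P1 c := by
  ext1 a b; simp [P1, conjTranspose_apply, star_qi, mul_assoc]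

lemma P_rk (c y : m → Q) :
    P0 c *ᵥ y - rm qi (P1 c *ᵥ y) = (2 : ℝ) • (cs m).rk c y := by
  have h0 : P0 c *ᵥ y = rm (star c ⬝ᵥ y) c := by
    ext1 a; simp [P0, mulVec, dotProduct, Finset.mul_sum, mul_assoc]
  have h1 : P1 c *ᵥ y = rm (qi * (star c ⬝ᵥ y)) c := by
    ext1 a; simp [P1, mulVec, dotProduct, Finset.mul_sum, mul_assoc]
  have h2 : (cs m).B ((cs m).J c) y = (star c ⬝ᵥ y).imI := by
    change ip (rm qi c) y = _
    rw [ip_rm, ip_apply]
    have : star c ⬝ᵥ rm (star qi) y = (star c ⬝ᵥ y) * star qi := by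
      simp [dotProduct, Finset.sum_mul, mul_assoc]
    rw [this]; simp
  rw [h0, h1, CS.rk, h2]
  change _ = (2 : ℝ) • ((star c ⬝ᵥ y).re • c + (star c ⬝ᵥ y).imI • rm qi c)
  generalize star c ⬝ᵥ y = s
  ext1 a
  simp only [Pi.sub_apply, rm_apply, Pi.smul_apply, Pi.add_apply]
  generalize c a = u
  ext <;> simp <;> ring

end

/-! ### explicit solutions -/

section ODE
variable {n : ℕ}

/-- the functions `t ↦ (u + t v) exp (t μ)` -/
noncomputable def sol (μ : Q) (u v : Fin n → Q) (t : ℝ) : Fin n → Q :=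
  rm (NormedSpace.exp (t • μ)) (u + t • v)

lemma hasDerivAt_sol (μ : Q) (u v : Fin n → Q) (t : ℝ) :
    HasDerivAt (sol μ u v) (sol μ (rm μ u + v) (rm μ v) t) t := by
  rw [hasDerivAt_pi]
  intro a
  have h1 : HasDerivAt (fun s : ℝ => u a + s • v a) (v a) t := by
    simpa using ((hasDerivAt_id t).smul_const (v a)).const_add (u a)
  have h2 := h1.mul (hasDerivAt_exp_smul_const' μ t)
  have e1 : (fun s : ℝ => sol μ u v s a) =
      (fun s : ℝ => u a + s • v a) * fun s : ℝ => NormedSpace.exp (s • μ) := by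
    funext s; simp [sol]
  have e2 : sol μ (rm μ u + v) (rm μ v) t a =
      v a * NormedSpace.exp (t • μ) + (u a + t • v a) * (μ * NormedSpace.exp (t • μ)) := by
    simp only [sol, rm_apply, Pi.add_apply, Pi.smul_apply]
    simp only [add_mul, mul_assoc, smul_mul_assoc]
    abel
  rw [e1, e2]; exact h2

lemma deriv_sol (μ : Q) (u v : Fin n → Q) :
    deriv (sol μ u v) = sol μ (rm μ u + v) (rm μ v) := by
  ext1 t; exact (hasDerivAt_sol μ u v t).deriv

lemma contDiff_sol (μ : Q) (k : ℕ) : ∀ u v : Fin n → Q, ContDiff ℝ k (sol μ u v) := by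
  induction k with
  | zero =>
    intro u v
    simp only [CharP.cast_eq_zero, contDiff_zero]
    exact continuous_iff_continuousAt.2 fun t => (hasDerivAt_sol μ u v t).continuousAt
  | succ k ih =>
    intro u v
    rw [Nat.cast_succ, contDiff_succ_iff_deriv]
    refine ⟨fun t => (hasDerivAt_sol μ u v t).differentiableAt, by simp, ?_⟩
    rw [deriv_sol]; exact ih _ _

/-- the blocks of the second vector of a Jordan chain -/
noncomputable def U (μ : Q) (u v : Fin n → Q) : ℕ → Fin n → Q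
  | 0 => u
  | k + 1 => rm μ (U μ u v k) + rm (μ ^ k) v

lemma iteratedDeriv_sol (μ : Q) (u v : Fin n → Q) (k : ℕ) :
    iteratedDeriv k (sol μ u v) = sol μ (U μ u v k) (rm (μ ^ k) v) := by
  induction k with
  | zero => simp [U]
  | succ k ih => rw [iteratedDeriv_succ, ih, deriv_sol, U, rm_rm, pow_succ]

lemma U_mul (μ : Q) (u v : Fin n → Q) (k : ℕ) :
    rm μ (U μ u v k) = rm (μ ^ k) (rm μ u) + (k : ℝ) • rm (μ ^ k) v := by
  induction k with
  | zero => simp [U]
  | succ k ih =>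
    rw [U, map_add, ih]
    simp only [map_add, map_smul, rm_rm, ← pow_succ, ← pow_succ', Nat.cast_succ, add_smul,
      one_smul]
    rw [add_assoc]

lemma U_zero (μ : Q) (u : Fin n → Q) (k : ℕ) : U μ u 0 k = rm (μ ^ k) u := by
  induction k with
  | zero => simp [U]
  | succ k ih => rw [U, ih, rm_rm, map_zero, add_zero, pow_succ]

lemma isSolution_sol (l : ℕ) (A : ℕ → QMat (Fin n)) (μ : Q) (u v : Fin n → Q)
    (h0 : ∑ k ∈ Finset.range (l + 1), A k *ᵥ rm (μ ^ k) v = 0)
    (h1 : ∑ k ∈ Finset.range (l + 1), A k *ᵥ U μ u v k = 0) : IsSolution l A (sol μ u v) := by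
  refine ⟨contDiff_sol μ l u v, fun t => ?_⟩
  simp only [mulVec_rm] at h0
  simp only [iteratedDeriv_sol, sol, mulVec_rm, mulVec_add, mulVec_smul]
  rw [← map_sum, Finset.sum_add_distrib, ← Finset.smul_sum, h0, h1]
  simp

lemma norm_sol (μ : Q) (u v : Fin n → Q) (t : ℝ) (a : Fin n) :
    ‖sol μ u v t a‖ = ‖u a + t • v a‖ * Real.exp (t * μ.re) := by
  simp only [sol, rm_apply, norm_mul, Quaternion.norm_exp, Pi.add_apply, Pi.smul_apply]
  rw [← Real.exp_eq_exp_ℝ]
  simp

/-- in a bounded system the characteristic values are purely imaginary -/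
lemma re_eq_zero {l : ℕ} {A : ℕ → QMat (Fin n)} (hb : BoundedSystem l A) (μ : Q)
    (u : Fin n → Q) (hu : u ≠ 0)
    (h0 : ∑ k ∈ Finset.range (l + 1), A k *ᵥ rm (μ ^ k) u = 0) : μ.re = 0 := by
  by_contra hre
  obtain ⟨M, hM⟩ := hb _ (isSolution_sol l A μ u 0 (by simp) (by simpa [U_zero] using h0))
  obtain ⟨a, ha⟩ := Function.ne_iff.1 hu
  have hpos : 0 < ‖u a‖ := norm_pos_iff.2 ha
  have h := (norm_le_pi_norm _ a).trans (hM ((M / ‖u a‖) / μ.re))
  rw [norm_sol, div_mul_cancel₀ _ hre] at h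
  simp only [Pi.zero_apply, smul_zero, add_zero] at h
  have h2 := Real.add_one_le_exp (M / ‖u a‖)
  have h3 : ‖u a‖ * (M / ‖u a‖ + 1) ≤ M := (mul_le_mul_of_nonneg_left h2 hpos.le).trans h
  rw [mul_add, mul_div_cancel₀ _ hpos.ne'] at h3
  linarith

/-- a bounded system has no Jordan chains -/
lemma no_chain {l : ℕ} {A : ℕ → QMat (Fin n)} (hb : BoundedSystem l A) (μ : Q) (hμ : μ.re = 0)
    (u v : Fin n → Q)
    (h0 : ∑ k ∈ Finset.range (l + 1), A k *ᵥ rm (μ ^ k) v = 0)
    (h1 : ∑ k ∈ Finset.range (l + 1), A k *ᵥ U μ u v k = 0) : v = 0 := by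
  by_contra hv
  obtain ⟨M, hM⟩ := hb _ (isSolution_sol l A μ u v h0 h1)
  obtain ⟨a, ha⟩ := Function.ne_iff.1 hv
  have hpos : 0 < ‖v a‖ := norm_pos_iff.2 ha
  set t := (|M| + ‖u a‖ + 1) / ‖v a‖ with ht
  have h := (norm_le_pi_norm _ a).trans (hM t)
  rw [norm_sol, hμ, mul_zero, Real.exp_zero, mul_one] at h
  have h2 : ‖t • v a‖ ≤ ‖u a + t • v a‖ + ‖u a‖ := by
    calc ‖t • v a‖ = ‖(u a + t • v a) - u a‖ := by simp
      _ ≤ _ := norm_sub_le _ _
  have ht0 : 0 ≤ t := by positivity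
  rw [norm_smul, Real.norm_of_nonneg ht0, ht, div_mul_cancel₀ _ hpos.ne'] at h2
  linarith [le_abs_self M]

end ODE

end Pool.Agent.H63Z.QODE
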