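import Mathlib
import Pool.Agent.H63Z.QODE.Quat

/-! The perturbation argument: stable boundedness forces a definite form on each kernel. -/

namespace Pool.Agent.H63Z.QODE

open Matrix

variable {n : ℕ}

/-- `x ↦ ∑ A k x μ^k` -/
noncomputable def Mop (l : ℕ) (A : ℕ → QMat (Fin n)) (μ : Q) : (Fin n → Q) →ₗ[ℝ] (Fin n → Q) :=
  ∑ k ∈ Finset.range (l + 1), lm (A k) ∘ₗ rm (μ ^ k)

/-- `x ↦ ∑ k A k x μ^k` -/
noncomputable def Dop (l : ℕ) (A : ℕ → QMat (Fin n)) (μ : Q) : (Fin n → Q) →ₗ[ℝ] (Fin n → Q) :=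
  ∑ k ∈ Finset.range (l + 1), (k : ℝ) • (lm (A k) ∘ₗ rm (μ ^ k))

lemma Mop_apply (l : ℕ) (A : ℕ → QMat (Fin n)) (μ : Q) (x : Fin n → Q) :
    Mop l A μ x = ∑ k ∈ Finset.range (l + 1), A k *ᵥ rm (μ ^ k) x := by
  simp [Mop, lm_apply]

lemma Dop_apply (l : ℕ) (A : ℕ → QMat (Fin n)) (μ : Q) (x : Fin n → Q) :
    Dop l A μ x = ∑ k ∈ Finset.range (l + 1), (k : ℝ) • A k *ᵥ rm (μ ^ k) x := by
  simp [Dop, lm_apply]

lemma term_symm {l : ℕ} {A : ℕ → QMat (Fin n)} (hA : Admissible l A) {μ : Q}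
    (hμ : star μ = -μ) {k : ℕ} (hk : k ≤ l) (x y : Fin n → Q) :
    ip (A k *ᵥ rm (μ ^ k) x) y = ip x (A k *ᵥ rm (μ ^ k) y) := by
  rw [ip_mulVec, ip_rm, star_pow, hμ, mulVec_rm]
  rcases Nat.even_or_odd k with he | ho
  · rw [(hA k hk).1 he, he.neg_pow]
  · rw [(hA k hk).2 ho, ho.neg_pow, rm_neg, neg_mulVec]
    simp only [map_neg, neg_neg]

lemma Mop_symm {l : ℕ} {A : ℕ → QMat (Fin n)} (hA : Admissible l A) {μ : Q}
    (hμ : star μ = -μ) (x y : Fin n → Q) : ip (Mop l A μ x) y = ip x (Mop l A μ y) := by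
  simp only [Mop_apply, map_sum, LinearMap.sum_apply]
  exact Finset.sum_congr rfl fun k hk =>
    term_symm hA hμ (Nat.lt_succ_iff.1 (Finset.mem_range.1 hk)) x y

lemma Dop_symm {l : ℕ} {A : ℕ → QMat (Fin n)} (hA : Admissible l A) {μ : Q}
    (hμ : star μ = -μ) (x y : Fin n → Q) : ip (Dop l A μ x) y = ip x (Dop l A μ y) := by
  simp only [Dop_apply, map_sum, LinearMap.sum_apply, map_smul, LinearMap.smul_apply]
  exact Finset.sum_congr rfl fun k hk => by
    rw [term_symm hA hμ (Nat.lt_succ_iff.1 (Finset.mem_range.1 hk)) x y]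

lemma Mop_J (l : ℕ) (A : ℕ → QMat (Fin n)) {μ : Q} (hμ : Commute qi μ) (x : Fin n → Q) :
    Mop l A μ (rm qi x) = rm qi (Mop l A μ x) := by
  simp only [Mop_apply, map_sum, ← mulVec_rm, rm_rm, (hμ.pow_right _).eq]

lemma Dop_J (l : ℕ) (A : ℕ → QMat (Fin n)) {μ : Q} (hμ : Commute qi μ) (x : Fin n → Q) :
    Dop l A μ (rm qi x) = rm qi (Dop l A μ x) := by
  simp only [Dop_apply, map_sum, map_smul, ← mulVec_rm, rm_rm, (hμ.pow_right _).eq]

lemma no_chain' {l : ℕ} {A : ℕ → QMat (Fin n)} (hb : BoundedSystem l A) {μ : Q} (hμ : μ.re = 0)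
    (hμ0 : μ ≠ 0) (x w : Fin n → Q) (h0 : Mop l A μ x = 0)
    (h1 : Mop l A μ w + Dop l A μ x = 0) : x = 0 := by
  refine no_chain hb μ hμ (rm μ⁻¹ w) x (by rw [← Mop_apply, h0]) ?_
  apply rm_eq_zero hμ0
  rw [map_sum]
  simp only [← mulVec_rm, U_mul, rm_rm, inv_mul_cancel₀ hμ0, one_mul, mulVec_add, mulVec_smul]
  rw [Finset.sum_add_distrib, ← Mop_apply, ← Dop_apply, h1]

lemma conjT_smul {m : Type} (r : ℝ) (B : QMat m) : (r • B)ᴴ = r • Bᴴ := by
  ext1 a b; simp [conjTranspose_apply]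

/-- perturbation of the two lowest coefficients -/
noncomputable def pert (A : ℕ → QMat (Fin n)) (B0 B1 : QMat (Fin n)) : ℕ → QMat (Fin n)
  | 0 => A 0 + B0
  | 1 => A 1 + B1
  | k + 2 => A (k + 2)

lemma pert_admissible {l : ℕ} {A : ℕ → QMat (Fin n)} (hA : Admissible l A) {B0 B1 : QMat (Fin n)}
    (h0 : B0ᴴ = B0) (h1 : B1ᴴ = -B1) : Admissible l (pert A B0 B1) := by
  intro k hk
  match k with
  | 0 => exact ⟨fun he => by simp [pert, h0, (hA 0 hk).1 he], fun ho => by simp at ho⟩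
  | 1 => exact ⟨fun he => by simp at he, fun ho => by simp [pert, h1, (hA 1 hk).2 ho, add_comm]⟩
  | k + 2 => exact hA _ hk

lemma Mop_pert {l : ℕ} (hl : 1 ≤ l) (A : ℕ → QMat (Fin n)) (B0 B1 : QMat (Fin n)) (μ : Q)
    (x : Fin n → Q) :
    Mop l (pert A B0 B1) μ x = Mop l A μ x + (B0 *ᵥ x + rm μ (B1 *ᵥ x)) := by
  obtain ⟨l, rfl⟩ := Nat.exists_eq_add_of_le' hl
  simp only [Mop_apply, Finset.sum_range_succ', pert, add_mulVec, zero_add, pow_one, pow_zero,
    rm_one, mulVec_rm, map_add]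
  abel

lemma Dop_pert {l : ℕ} (hl : 1 ≤ l) (A : ℕ → QMat (Fin n)) (B0 B1 : QMat (Fin n)) (μ : Q)
    (x : Fin n → Q) :
    Dop l (pert A B0 B1) μ x = Dop l A μ x + rm μ (B1 *ᵥ x) := by
  obtain ⟨l, rfl⟩ := Nat.exists_eq_add_of_le' hl
  simp only [Dop_apply, Finset.sum_range_succ', pert, add_mulVec, zero_add, pow_one, pow_zero,
    rm_one, mulVec_rm, Nat.cast_zero, zero_smul, add_zero, Nat.cast_one, one_smul, map_add]
  abel

lemma continuous_ip {X : Type} [TopologicalSpace X] {f g : X → Fin n → Q} (hf : Continuous f)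
    (hg : Continuous g) : Continuous fun s => ip (f s) (g s) := by
  simp only [ip_eq]
  refine continuous_finset_sum _ fun a _ => ?_
  exact Quaternion.continuous_re.comp (by fun_prop)

lemma continuous_rm {X : Type} [TopologicalSpace X] {f : X → Fin n → Q} (hf : Continuous f)
    (q : Q) : Continuous fun s => rm q (f s) := by
  refine continuous_pi fun a => ?_
  simp only [rm_apply]
  fun_prop

lemma continuous_cvec {X : Type} [TopologicalSpace X] {f : X → Fin n → Q} (hf : Continuous f)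
    (b : Fin n → Q) : Continuous fun s => (cs (Fin n)).cvec (f s) b := by
  change Continuous fun s => ip (f s) (f s) • b - ip (f s) b • f s - ip (rm qi (f s)) b • rm qi (f s)
  have h1 := continuous_ip hf hf
  have h2 := continuous_ip hf (continuous_const (y := b))
  have h3 := continuous_rm hf qi
  have h4 := continuous_ip h3 (continuous_const (y := b))
  exact ((h1.smul continuous_const).sub (h2.smul hf)).sub (h4.smul h3)

theorem not_indefinite {l : ℕ} (hl : 1 ≤ l) {A : ℕ → QMat (Fin n)} (hA : Admissible l A)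
    (hs : StablyBounded l A) {ω : ℝ} (hω : 0 < ω) (xp xm : Fin n → Q)
    (hp : Mop l A (ω • qi) xp = 0) (hm : Mop l A (ω • qi) xm = 0)
    (hqp : 0 < ip xp (Dop l A (ω • qi) xp)) (hqm : ip xm (Dop l A (ω • qi) xm) < 0) : False := by
  set μ : Q := ω • qi with hμdef
  have hstar : star μ = -μ := by rw [hμdef]; ext <;> simp
  have hcomm : Commute qi μ := by rw [hμdef]; exact (Commute.refl qi).smul_right ω
  have hre : μ.re = 0 := by rw [hμdef]; simp
  have hμ0 : μ ≠ 0 := by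
    intro h
    have h2 : μ.imI = (0 : Q).imI := by rw [h]
    rw [hμdef] at h2
    have h3 : ω * 1 = 0 := h2
    linarith
  obtain ⟨ε, hε, hst⟩ := hs
  obtain ⟨m, b, hb, hspan⟩ := exists_spanning ip ip_pos (Mop l A μ)
  let x : ℝ → Fin n → Q := fun s => (1 - s) • xp + s • xm
  have hxc : Continuous x := by fun_prop
  let c : Fin m → ℝ → Fin n → Q := fun i s => (cs (Fin n)).cvec (x s) (b i)
  have hcc : ∀ i, Continuous (c i) := fun i => continuous_cvec hxc (b i)
  let E0 : ℝ → QMat (Fin n) := fun s => ∑ i, P0 (c i s)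
  let E1 : ℝ → QMat (Fin n) := fun s => (-ω⁻¹) • ∑ i, P1 (c i s)
  have hE0 : ∀ a a', Continuous fun s => E0 s a a' := by
    intro a a'
    simp only [E0, Matrix.sum_apply, P0]
    refine continuous_finset_sum _ fun i _ => ?_
    have := hcc i
    fun_prop
  have hE1 : ∀ a a', Continuous fun s => E1 s a a' := by
    intro a a'
    simp only [E1, Matrix.smul_apply, Matrix.sum_apply, P1]
    have h : Continuous fun s => ∑ i, c i s a * qi * star (c i s a') := by
      refine continuous_finset_sum _ fun i _ => ?_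
      have := hcc i
      fun_prop
    exact h.const_smul (-ω⁻¹)
  let N : ℝ → ℝ := fun s => ∑ a, ∑ a', (‖E0 s a a'‖ + ‖E1 s a a'‖)
  have hNc : Continuous N :=
    continuous_finset_sum _ fun a _ => continuous_finset_sum _ fun a' _ =>
      (hE0 a a').norm.add (hE1 a a').norm
  obtain ⟨R, hR⟩ := (isCompact_Icc (a := (0 : ℝ)) (b := 1)).bddAbove_image hNc.continuousOn
  have hRle : ∀ s ∈ Set.Icc (0 : ℝ) 1, ∀ a a', ‖E0 s a a'‖ + ‖E1 s a a'‖ ≤ R := by
    intro s hs a a'
    refine le_trans ?_ (hR ⟨s, hs, rfl⟩)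
    calc ‖E0 s a a'‖ + ‖E1 s a a'‖ ≤ ∑ a', (‖E0 s a a'‖ + ‖E1 s a a'‖) :=
          Finset.single_le_sum (f := fun a' => ‖E0 s a a'‖ + ‖E1 s a a'‖)
            (fun _ _ => by positivity) (Finset.mem_univ a')
      _ ≤ N s := Finset.single_le_sum (f := fun a => ∑ a', (‖E0 s a a'‖ + ‖E1 s a a'‖))
            (fun _ _ => Finset.sum_nonneg fun _ _ => by positivity) (Finset.mem_univ a)
  let q : ℝ → ℝ := fun s => ip (x s) (Dop l A μ (x s))
  let g : ℝ → ℝ := fun s => ip (x s) (rm μ (E1 s *ᵥ x s))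
  have hqc : Continuous q :=
    continuous_ip hxc ((LinearMap.continuous_of_finiteDimensional (Dop l A μ)).comp hxc)
  have hgc : Continuous g := by
    refine continuous_ip hxc (continuous_rm (continuous_pi fun a => ?_) μ)
    simp only [mulVec, dotProduct]
    refine continuous_finset_sum _ fun a' _ => (hE1 a a').mul ?_
    fun_prop
  have hq0 : 0 < q 0 := by simpa [q, x] using hqp
  have hq1 : q 1 < 0 := by simpa [q, x] using hqm
  have ev1 : ∀ᶠ δ : ℝ in nhds 0, δ * R < ε :=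
    (by fun_prop : Continuous fun δ : ℝ => δ * R).continuousAt.eventually_lt continuousAt_const
      (by simpa using hε)
  have ev2 : ∀ᶠ δ : ℝ in nhds 0, 0 < q 0 + δ * g 0 :=
    continuousAt_const.eventually_lt
      (by fun_prop : Continuous fun δ : ℝ => q 0 + δ * g 0).continuousAt (by simpa using hq0)
  have ev3 : ∀ᶠ δ : ℝ in nhds 0, q 1 + δ * g 1 < 0 :=
    (by fun_prop : Continuous fun δ : ℝ => q 1 + δ * g 1).continuousAt.eventually_lt
      continuousAt_const (by simpa using hq1)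
  obtain ⟨δ, ⟨⟨h1, h2⟩, h3⟩, hδ⟩ :=
    ((((ev1.and ev2).and ev3).filter_mono nhdsWithin_le_nhds).and
      (self_mem_nhdsWithin (s := Set.Ioi (0 : ℝ)) (a := 0))).exists
  have hδ0 : 0 < δ := hδ
  obtain ⟨s, hs, hfs⟩ := intermediate_value_Icc' (zero_le_one' ℝ)
    (f := fun s => q s + δ * g s) (hqc.add (continuous_const.mul hgc)).continuousOn
    (show (0 : ℝ) ∈ Set.Icc (q 1 + δ * g 1) (q 0 + δ * g 0) from ⟨h3.le, h2.le⟩)
  have hfs' : q s + δ * g s = 0 := hfs
  have hxK : Mop l A μ (x s) = 0 := by simp [x, hp, hm]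
  have hx0 : x s ≠ 0 := by
    intro h0
    have e : (1 - s) • xp = -(s • xm) := eq_neg_of_add_eq_zero_left h0
    have e2 : ip ((1 - s) • xp) (Dop l A μ ((1 - s) • xp)) =
        ip (-(s • xm)) (Dop l A μ (-(s • xm))) := by rw [e]
    simp only [map_smul, map_neg, LinearMap.smul_apply, LinearMap.neg_apply, smul_eq_mul,
      neg_neg] at e2
    have e3 : (1 - s) ^ 2 * ip xp (Dop l A μ xp) = s ^ 2 * ip xm (Dop l A μ xm) := by
      linarith
    have e4 : 0 ≤ (1 - s) ^ 2 * ip xp (Dop l A μ xp) := by positivity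
    have e5 : s ^ 2 * ip xm (Dop l A μ xm) ≤ 0 :=
      mul_nonpos_of_nonneg_of_nonpos (sq_nonneg s) hqm.le
    have e6 : (1 - s) ^ 2 = 0 :=
      (mul_eq_zero.1 (le_antisymm (e3 ▸ e5) e4)).resolve_right hqp.ne'
    have e7 : s ^ 2 = 0 :=
      (mul_eq_zero.1 (le_antisymm e5 (e3 ▸ e4))).resolve_right hqm.ne
    have e8 : 1 - s = 0 := pow_eq_zero_iff (two_ne_zero) |>.1 e6
    have e9 : s = 0 := pow_eq_zero_iff (two_ne_zero) |>.1 e7
    linarith
  let A' := pert A (δ • E0 s) (δ • E1 s)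
  have hA' : Admissible l A' := by
    refine pert_admissible hA ?_ ?_
    · simp only [E0, conjT_smul, conjTranspose_sum, P0_herm]
    · simp only [E1, conjT_smul, conjTranspose_sum, P1_skew,
        Finset.sum_neg_distrib, smul_neg]
  have hbd : BoundedSystem l A' := by
    refine hst A' hA' fun k _ a a' => ?_
    have hle := hRle s hs a a'
    match k with
    | 0 =>
      simp only [A', pert, Matrix.add_apply, add_sub_cancel_left, Matrix.smul_apply, norm_smul,
        Real.norm_of_nonneg hδ0.le]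
      have : δ * ‖E0 s a a'‖ ≤ δ * R :=
        mul_le_mul_of_nonneg_left (by linarith [norm_nonneg (E1 s a a')]) hδ0.le
      linarith
    | 1 =>
      simp only [A', pert, Matrix.add_apply, add_sub_cancel_left]
      rw [Matrix.smul_apply, norm_smul, Real.norm_of_nonneg hδ0.le]
      have : δ * ‖E1 s a a'‖ ≤ δ * R :=
        mul_le_mul_of_nonneg_left (by linarith [norm_nonneg (E0 s a a')]) hδ0.le
      linarith
    | k + 2 => simpa [A', pert] using hε
  let H : (Fin n → Q) →ₗ[ℝ] (Fin n → Q) := lm (δ • E0 s) + rm μ ∘ₗ lm (δ • E1 s)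
  have hH' : ∀ y, H y = (δ • E0 s) *ᵥ y + rm μ ((δ • E1 s) *ᵥ y) := fun y => rfl
  have hH : ∀ y, H y = (2 * δ) • ∑ i, (cs (Fin n)).rk ((cs (Fin n)).cvec (x s) (b i)) y := by
    intro y
    rw [hH', mul_comm, mul_smul, Finset.smul_sum (r := (2 : ℝ))]
    simp only [← P_rk, E0, E1, smul_mulVec, sum_mulVec, map_smul, map_sum, hμdef, rm_smul,
      Finset.sum_sub_distrib, smul_sub, c]
    rw [← Finset.smul_sum (r := ω), smul_smul (-ω⁻¹), neg_mul, inv_mul_cancel₀ hω.ne']
    simp [sub_eq_add_neg]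
  have hM' : ∀ y, Mop l A' μ y = Mop l A μ y + H y := fun y => Mop_pert hl A _ _ μ y
  have hHx : H (x s) = 0 := by
    rw [hH]; simp [CS.rk_cvec_x]
  have hz1 : ip (x s) (-Dop l A' μ (x s)) = 0 := by
    rw [map_neg, Dop_pert hl, map_add, smul_mulVec, map_smul, map_smul, neg_eq_zero]
    exact hfs'
  have hz2 : ip (rm qi (x s)) (-Dop l A' μ (x s)) = 0 := by
    rw [map_neg, neg_eq_zero]
    exact (cs (Fin n)).BJ_sym (Dop l A' μ) (Dop_symm hA' hstar) (Dop_J l A' hcomm) (x s)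
  obtain ⟨w, hw⟩ := (cs (Fin n)).solve (Mop l A μ) H (Mop_symm hA hstar) (Mop_J l A hcomm) b hb
    hspan (x s) hxK hx0 (2 * δ) (by positivity) hH _ hz1 hz2
  exact hx0 (no_chain' hbd hre hμ0 (x s) w (by rw [hM', hxK, hHx, add_zero])
    (by rw [hM', hw, neg_add_cancel]))

lemma StablyBounded.bounded {l : ℕ} {A : ℕ → QMat (Fin n)} (hA : Admissible l A)
    (hs : StablyBounded l A) : BoundedSystem l A := by
  obtain ⟨ε, hε, h⟩ := hs
  exact h A hA fun k _ a b => by simpa using hε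

theorem definite {l : ℕ} (hl : 1 ≤ l) {A : ℕ → QMat (Fin n)} (hA : Admissible l A)
    (hs : StablyBounded l A) {ω : ℝ} (hω : 0 < ω) :
    (∀ x, Mop l A (ω • qi) x = 0 → x ≠ 0 → 0 < ip x (Dop l A (ω • qi) x)) ∨
    (∀ x, Mop l A (ω • qi) x = 0 → x ≠ 0 → ip x (Dop l A (ω • qi) x) < 0) := by
  have hni := not_indefinite hl hA hs hω
  set μ : Q := ω • qi with hμdef
  have hstar : star μ = -μ := by rw [hμdef]; ext <;> simp
  have hre : μ.re = 0 := by rw [hμdef]; simp
  have hμ0 : μ ≠ 0 := by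
    intro h
    have h2 : μ.imI = (0 : Q).imI := by rw [h]
    rw [hμdef] at h2
    have h3 : ω * 1 = 0 := h2
    linarith
  have hbd := hs.bounded hA
  have key : ∀ x, Mop l A μ x = 0 → (∀ y, Mop l A μ y = 0 → ip y (Dop l A μ x) = 0) → x = 0 := by
    intro x hx h
    obtain ⟨w, hw⟩ := range_of_orth ip ip_pos (Mop l A μ) (Mop_symm hA hstar)
      (-Dop l A μ x) (fun k hk => by rw [map_neg, h k hk, neg_zero])
    exact no_chain' hbd hre hμ0 x w hx (by rw [hw, neg_add_cancel])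
  by_cases hneg : ∃ xm, Mop l A μ xm = 0 ∧ ip xm (Dop l A μ xm) < 0
  · right
    obtain ⟨xm, hm, hqm⟩ := hneg
    have hle : ∀ y, Mop l A μ y = 0 → ip y (Dop l A μ y) ≤ 0 := fun y hy =>
      le_of_not_gt fun h => hni y xm hy hm h hqm
    intro x hx hx0
    refine lt_of_le_of_ne (hle x hx) fun h0 => hx0 (key x hx fun y hy => ?_)
    have := (cs (Fin n)).radical (-Dop l A μ) (fun u v => by
      change ip (-Dop l A μ u) v = ip u (-Dop l A μ v)
      rw [map_neg, map_neg, LinearMap.neg_apply, Dop_symm hA hstar]) (Mop l A μ)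
      (fun y hy => by
        change 0 ≤ ip y (-Dop l A μ y)
        rw [map_neg]; linarith [hle y hy]) x hx (by
        change ip x (-Dop l A μ x) = 0
        rw [map_neg, h0, neg_zero]) y hy
    change ip y (-Dop l A μ x) = 0 at this
    rwa [map_neg, neg_eq_zero] at this
  · left
    push Not at hneg
    intro x hx hx0
    refine lt_of_le_of_ne (hneg x hx) fun h0 => hx0 (key x hx fun y hy => ?_)
    exact (cs (Fin n)).radical (Dop l A μ) (Dop_symm hA hstar) (Mop l A μ) hneg x hx h0.symm y hy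

end Pool.Agent.H63Z.QODE
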