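import Mathlib
import Pool.Agent.H63Z.QODE.Perturb

/-! The companion matrix, the matrix `G`, and the final assembly. -/

namespace Pool.Agent.H63Z.QODE

open Matrix

variable {n l : ℕ}

/-- the `i`-th block of a vector -/
def blk (v : Fin l × Fin n → Q) (i : Fin l) : Fin n → Q := fun a => v (i, a)

/-- blocks of the companion matrix -/
noncomputable def Cb (l : ℕ) (A : ℕ → QMat (Fin n)) (i j : ℕ) : QMat (Fin n) :=
  if i + 1 = l then -(Ring.inverse (A l) * A j) else if j = i + 1 then 1 else 0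

/-- blocks of `G` -/
noncomputable def Gb (l : ℕ) (A : ℕ → QMat (Fin n)) (i j : ℕ) : QMat (Fin n) :=
  if i + j + 1 ≤ l then ((-1 : ℝ) ^ i) • A (i + j + 1) else 0

lemma companion_eq (A : ℕ → QMat (Fin n)) (p q : Fin l × Fin n) :
    companion l A p q = Cb l A p.1 q.1 p.2 q.2 := by
  unfold companion Cb
  split_ifs <;> rfl

lemma gmat_eq (A : ℕ → QMat (Fin n)) (p q : Fin l × Fin n) :
    gmat l A p q = Gb l A p.1 q.1 p.2 q.2 := by
  unfold gmat Gb
  split_ifs <;> rfl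

lemma blk_mulVec (X : QMat (Fin l × Fin n)) (Xb : ℕ → ℕ → QMat (Fin n))
    (h : ∀ p q, X p q = Xb p.1 q.1 p.2 q.2) (v : Fin l × Fin n → Q) (i : Fin l) :
    blk (X *ᵥ v) i = ∑ j : Fin l, Xb i j *ᵥ blk v j := by
  ext1 a
  simp only [blk, mulVec, dotProduct, h, Fintype.sum_prod_type, Finset.sum_apply]

lemma ip_blk (u v : Fin l × Fin n → Q) : ip u v = ∑ i, ip (blk u i) (blk v i) := by
  simp only [ip_eq, Fintype.sum_prod_type, blk]

lemma blk_rm (q : Q) (v : Fin l × Fin n → Q) (i : Fin l) : blk (rm q v) i = rm q (blk v i) := rfl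

lemma blk_add (u v : Fin l × Fin n → Q) (i : Fin l) : blk (u + v) i = blk u i + blk v i := rfl

lemma blk_C_lt (A : ℕ → QMat (Fin n)) (v : Fin l × Fin n → Q) (i : ℕ) (h : i + 1 < l) :
    blk (companion l A *ᵥ v) ⟨i, by omega⟩ = blk v ⟨i + 1, h⟩ := by
  rw [blk_mulVec _ _ (companion_eq A), Finset.sum_eq_single ⟨i + 1, h⟩]
  · simp [Cb, h.ne]
  · intro j _ hj
    have : (j : ℕ) ≠ i + 1 := fun e => hj (Fin.ext e)
    simp [Cb, h.ne, this]
  · simp

lemma sum_eq_zero_of_blocks {A : ℕ → QMat (Fin n)} (hu : IsUnit (A (l + 1)))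
    (w : Fin (l + 1) × Fin n → Q) (Y : ℕ → Fin n → Q) (hw : ∀ i : Fin (l + 1), blk w i = Y i)
    (hlast : blk (companion (l + 1) A *ᵥ w) (Fin.last l) = Y (l + 1)) :
    ∑ k ∈ Finset.range (l + 1 + 1), A k *ᵥ Y k = 0 := by
  rw [blk_mulVec _ _ (companion_eq A)] at hlast
  rw [Finset.sum_range_succ, ← hlast, mulVec_sum, ← Fin.sum_univ_eq_sum_range (fun k => A k *ᵥ Y k),
    ← Finset.sum_add_distrib]
  refine Finset.sum_eq_zero fun j _ => ?_
  simp only [Cb, Fin.val_last, if_true, hw, neg_mulVec, mulVec_neg, mulVec_mulVec, ← mul_assoc,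
    Ring.mul_inverse_cancel _ hu, one_mul, add_neg_cancel]

lemma eig_blk (A : ℕ → QMat (Fin n)) (μ : Q) (w : Fin (l + 1) × Fin n → Q)
    (h : companion (l + 1) A *ᵥ w = rm μ w) (i : ℕ) (hi : i < l + 1) :
    blk w ⟨i, hi⟩ = rm (μ ^ i) (blk w 0) := by
  induction i with
  | zero => simp
  | succ i ih => rw [← blk_C_lt A w i hi, h, blk_rm, ih, rm_rm, pow_succ]

lemma eig_zero (A : ℕ → QMat (Fin n)) (μ : Q) (w : Fin (l + 1) × Fin n → Q)
    (h : companion (l + 1) A *ᵥ w = rm μ w) (h0 : blk w 0 = 0) : w = 0 := by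
  ext1 ⟨i, a⟩
  have := congrFun (eig_blk A μ w h i i.2) a
  rw [h0, map_zero] at this
  exact this

lemma eig_sum {A : ℕ → QMat (Fin n)} (hu : IsUnit (A (l + 1))) (μ : Q)
    (w : Fin (l + 1) × Fin n → Q) (h : companion (l + 1) A *ᵥ w = rm μ w) :
    ∑ k ∈ Finset.range (l + 1 + 1), A k *ᵥ rm (μ ^ k) (blk w 0) = 0 := by
  refine sum_eq_zero_of_blocks hu w (fun k => rm (μ ^ k) (blk w 0))
    (fun i => eig_blk A μ w h i i.2) ?_
  rw [h, blk_rm, pow_succ, ← rm_rm, ← eig_blk A μ w h l (by omega)]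
  rfl

lemma chain_blk (A : ℕ → QMat (Fin n)) (μ : Q) (w0 w1 : Fin (l + 1) × Fin n → Q)
    (h0 : companion (l + 1) A *ᵥ w0 = rm μ w0) (h1 : companion (l + 1) A *ᵥ w1 = rm μ w1 + w0)
    (i : ℕ) (hi : i < l + 1) : blk w1 ⟨i, hi⟩ = U μ (blk w1 0) (blk w0 0) i := by
  induction i with
  | zero => simp [U]
  | succ i ih => rw [← blk_C_lt A w1 i hi, h1, blk_add, blk_rm, ih, eig_blk A μ w0 h0 i, U]

lemma no_chain_C {A : ℕ → QMat (Fin n)} (hu : IsUnit (A (l + 1))) (hb : BoundedSystem (l + 1) A)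
    {μ : Q} (hμ : μ.re = 0) (w0 w1 : Fin (l + 1) × Fin n → Q)
    (h0 : companion (l + 1) A *ᵥ w0 = rm μ w0) (h1 : companion (l + 1) A *ᵥ w1 = rm μ w1 + w0) :
    w0 = 0 := by
  refine eig_zero A μ w0 h0 (no_chain hb μ hμ (blk w1 0) (blk w0 0) (eig_sum hu μ w0 h0) ?_)
  refine sum_eq_zero_of_blocks hu w1 _ (fun i => chain_blk A μ w0 w1 h0 h1 i i.2) ?_
  rw [h1, blk_add, blk_rm, U, ← eig_blk A μ w0 h0 l (by omega), ← chain_blk A μ w0 w1 h0 h1 l (by omega)]
  rfl

lemma adm_conjT {A : ℕ → QMat (Fin n)} (hA : Admissible l A) {k : ℕ} (hk : k ≤ l) :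
    (A k)ᴴ = (-1 : ℝ) ^ k • A k := by
  rcases Nat.even_or_odd k with he | ho
  · rw [(hA k hk).1 he, he.neg_one_pow, one_smul]
  · rw [(hA k hk).2 ho, ho.neg_one_pow, neg_one_smul]

lemma Gb_conjT {A : ℕ → QMat (Fin n)} (hA : Admissible l A) (i j : ℕ) :
    (Gb l A i j)ᴴ = -Gb l A j i := by
  unfold Gb
  rw [show j + i + 1 = i + j + 1 by ring]
  split_ifs with h
  · rw [conjT_smul, adm_conjT hA h, smul_smul, ← neg_smul, ← pow_add]
    congr 1
    rw [show i + (i + j + 1) = 2 * i + j + 1 by ring, pow_succ, pow_add, pow_mul]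
    simp
  · simp

lemma gmat_conjT {A : ℕ → QMat (Fin n)} (hA : Admissible l A) : (gmat l A)ᴴ = -gmat l A := by
  ext1 p q
  have := congrFun (congrFun (Gb_conjT hA q.1 p.1) p.2) q.2
  rw [conjTranspose_apply] at this
  rw [conjTranspose_apply, Matrix.neg_apply, gmat_eq, gmat_eq, this, Matrix.neg_apply]

/-- blocks of `G C` -/
noncomputable def Kb (l : ℕ) (A : ℕ → QMat (Fin n)) (i j : ℕ) : QMat (Fin n) :=
  (if j = 0 then 0 else Gb l A i (j - 1)) - (if i = 0 then A j else 0)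

lemma GC_eq {A : ℕ → QMat (Fin n)} (hu : IsUnit (A (l + 1))) (p q : Fin (l + 1) × Fin n) :
    (gmat (l + 1) A * companion (l + 1) A) p q = Kb (l + 1) A p.1 q.1 p.2 q.2 := by
  have h1 : (gmat (l + 1) A * companion (l + 1) A) p q =
      (∑ k : Fin (l + 1), Gb (l + 1) A p.1 k * Cb (l + 1) A k q.1) p.2 q.2 := by
    simp only [Matrix.mul_apply, gmat_eq, companion_eq, Fintype.sum_prod_type, Matrix.sum_apply]
  rw [h1]
  obtain ⟨⟨i, hi⟩, a⟩ := p
  obtain ⟨⟨j, hj⟩, b⟩ := q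
  refine congrFun (congrFun ?_ a) b
  simp only
  rw [Fin.sum_univ_eq_sum_range (fun k => Gb (l + 1) A i k * Cb (l + 1) A k j),
    Finset.sum_range_succ, Kb, sub_eq_add_neg]
  congr 1
  · rcases j with _ | j
    · refine (Finset.sum_eq_zero fun k hk => ?_).trans (by simp)
      have : k ≠ l := (Finset.mem_range.1 hk).ne
      simp [Cb, this]
    · rw [Finset.sum_eq_single j]
      · have : j ≠ l := by omega
        simp [Cb, this]
      · intro k hk hkj
        have : k ≠ l := (Finset.mem_range.1 hk).ne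
        simp [Cb, this, hkj.symm]
      · intro h
        exact absurd (Finset.mem_range.2 (by omega)) h
  · rcases i with _ | i
    · simp [Gb, Cb, ← mul_assoc, Ring.mul_inverse_cancel _ hu]
    · have : ¬ (i + 1 + l + 1 ≤ l + 1) := by omega
      simp only [Gb, if_neg this]
      simp

lemma Kb_conjT {A : ℕ → QMat (Fin n)} (hA : Admissible l A) (i j : ℕ) (hi : i ≤ l) (hj : j ≤ l) :
    (Kb l A i j)ᴴ = Kb l A j i := by
  rcases i with _ | i <;> rcases j with _ | j
  · simp [Kb, (hA 0 (Nat.zero_le l)).1 (by simp)]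
  · simp [Kb, Gb, hj]
  · simp [Kb, Gb, hi]
  · simp only [Kb, Nat.succ_ne_zero, if_false, Nat.add_sub_cancel, sub_zero, Gb]
    rw [show j + 1 + i + 1 = i + 1 + j + 1 by ring]
    split_ifs with h
    · rw [conjT_smul, adm_conjT hA h, smul_smul, ← pow_add]
      congr 1
      rw [show i + 1 + (i + 1 + j + 1) = 2 * (i + 1) + (j + 1) by ring, pow_add, pow_mul]
      simp
    · simp

lemma GC_conjT {A : ℕ → QMat (Fin n)} (hA : Admissible (l + 1) A) (hu : IsUnit (A (l + 1))) :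
    (gmat (l + 1) A * companion (l + 1) A)ᴴ = gmat (l + 1) A * companion (l + 1) A := by
  ext1 p q
  have := congrFun (congrFun (Kb_conjT hA q.1 p.1 q.1.2.le p.1.2.le) p.2) q.2
  rw [conjTranspose_apply] at this
  rw [conjTranspose_apply, GC_eq hu, GC_eq hu, this]

lemma sum_diag (l : ℕ) (f : ℕ → ℝ) :
    ∑ i : Fin l, ∑ j : Fin l, (if (i : ℕ) + j + 1 ≤ l then f (i + j + 1) else 0) =
      ∑ k ∈ Finset.range (l + 1), (k : ℝ) * f k := by
  rw [Fin.sum_univ_eq_sum_range (fun i => ∑ j : Fin l, (if i + j + 1 ≤ l then f (i + j + 1) else 0))]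
  have h1 : ∀ i ∈ Finset.range l, ∑ j : Fin l, (if i + j + 1 ≤ l then f (i + j + 1) else 0) =
      ∑ j ∈ Finset.range (l - i), f (i + j + 1) := by
    intro i _
    rw [Fin.sum_univ_eq_sum_range (fun j => if i + j + 1 ≤ l then f (i + j + 1) else 0),
      ← Finset.sum_filter]
    congr 1
    ext j
    simp only [Finset.mem_filter, Finset.mem_range]
    omega
  rw [Finset.sum_congr rfl h1, ← Finset.sum_range_diag_flip l (fun i j => f (i + j + 1)),
    Finset.sum_range_succ']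
  simp only [Nat.cast_zero, zero_mul, add_zero]
  refine Finset.sum_congr rfl fun m _ => ?_
  rw [Finset.sum_congr rfl (g := fun _ => f (m + 1))]
  · simp
  · intro k hk
    have := Finset.mem_range.1 hk
    congr 1; omega

lemma form_eig (A : ℕ → QMat (Fin n)) {μ : Q} (hμ : star μ = -μ) (w : Fin (l + 1) × Fin n → Q)
    (h : companion (l + 1) A *ᵥ w = rm μ w) :
    ip w ((gmat (l + 1) A * companion (l + 1) A) *ᵥ w) =
      ip (blk w 0) (Dop (l + 1) A μ (blk w 0)) := by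
  rw [← mulVec_mulVec, h, ip_blk, Dop_apply, map_sum]
  simp only [map_smul, smul_eq_mul]
  rw [← sum_diag (l + 1) (fun k => ip (blk w 0) (A k *ᵥ rm (μ ^ k) (blk w 0)))]
  refine Finset.sum_congr rfl fun i _ => ?_
  rw [blk_mulVec _ _ (gmat_eq A), map_sum]
  refine Finset.sum_congr rfl fun j _ => ?_
  rw [blk_rm, eig_blk A μ w h i i.2, eig_blk A μ w h j j.2, Gb]
  split_ifs with hij
  · rw [ip_rm, star_pow, hμ, smul_mulVec, map_smul, ← mulVec_rm, rm_rm, rm_rm, ← mulVec_smul,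
      ← rm_smul]
    congr 4
    rcases Nat.even_or_odd (i : ℕ) with he | ho
    · rw [he.neg_one_pow, he.neg_pow, one_smul, ← pow_succ', ← pow_add]
      congr 1; ring
    · rw [ho.neg_one_pow, ho.neg_pow, mul_neg, mul_neg, neg_smul, one_smul, neg_neg, ← pow_succ',
        ← pow_add]
      congr 1; ring
  · simp

theorem main {A : ℕ → QMat (Fin n)} (hl : 1 ≤ l) (hA : Admissible l A) (hu : IsUnit (A l))
    (hs : StablyBounded l A) (hC : IsUnit (companion l A)) (lam : Q)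
    (hlam : IsEigenvalue (companion l A) lam) :
    PositiveOn (gmat l A * companion l A) (rootSubspace (companion l A) lam) ∨
    NegativeOn (gmat l A * companion l A) (rootSubspace (companion l A) lam) := by
  obtain ⟨l, rfl⟩ := Nat.exists_eq_add_of_le' hl
  have hb := hs.bounded hA
  obtain ⟨v0, hv0, hv0'⟩ := hlam
  have hv0e : companion (l + 1) A *ᵥ v0 = rm lam v0 := hv0'
  have hre : lam.re = 0 :=
    re_eq_zero hb lam (blk v0 0) (fun h => hv0 (eig_zero A lam v0 hv0e h)) (eig_sum hu lam v0 hv0e)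
  have hlam0 : lam ≠ 0 := by
    rintro rfl
    apply hv0
    obtain ⟨u, hu⟩ := hC
    have h1 : companion (l + 1) A *ᵥ v0 = 0 := by rw [hv0e]; ext1 a; simp
    have h2 : ((↑u⁻¹ : QMat _) * companion (l + 1) A) *ᵥ v0 = 0 := by
      rw [← mulVec_mulVec, h1, mulVec_zero]
    rwa [← hu, Units.inv_mul, one_mulVec] at h2
  have him : lam.im ≠ 0 := by
    intro h
    apply hlam0
    rw [← Quaternion.re_add_im lam, h, hre]; simp
  set C := companion (l + 1) A with hCdef
  set K := gmat (l + 1) A * C with hKdef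
  set ω := ‖lam‖ with hωdef
  have hω : 0 < ω := norm_pos_iff.2 hlam0
  set μ : Q := ω • qi with hμdef
  have hstar : star μ = -μ := by rw [hμdef]; ext <;> simp
  have hμre : μ.re = 0 := by rw [hμdef]; simp
  have hμμ : ∀ u : Fin (l + 1) × Fin n → Q, rm μ (rm μ u) = -(ω ^ 2) • u := by
    intro u
    rw [rm_rm, hμdef, smul_mul_smul_comm, qi_mul_qi, rm_smul, rm_neg, rm_one, sq, neg_smul,
      smul_neg]
  have hP : ∀ u, minPolyAt C lam *ᵥ u = C *ᵥ (C *ᵥ u) + (ω ^ 2) • u := by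
    intro u
    simp only [minPolyAt, if_neg him, hre, mul_zero, zero_smul, sub_zero, add_mulVec,
      smul_mulVec, one_mulVec, sq, mulVec_mulVec, hωdef]
  let S : (Fin (l + 1) × Fin n → Q) →ₗ[ℝ] (Fin (l + 1) × Fin n → Q) := lm C - rm μ
  let T : (Fin (l + 1) × Fin n → Q) →ₗ[ℝ] (Fin (l + 1) × Fin n → Q) := lm C + rm μ
  have hS : ∀ u, S u = C *ᵥ u - rm μ u := fun u => rfl
  have hT : ∀ u, T u = C *ᵥ u + rm μ u := fun u => rfl
  have hST : ∀ u, S (T u) = minPolyAt C lam *ᵥ u := by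
    intro u
    rw [hP, hS, hT, mulVec_add, map_add, hμμ, mulVec_rm, neg_smul]; abel
  have hTS : ∀ u, T (S u) = minPolyAt C lam *ᵥ u := by
    intro u
    rw [hP, hS, hT, mulVec_sub, map_sub, hμμ, mulVec_rm, neg_smul]; abel
  have hSS : ∀ u, S (S u) = 0 → S u = 0 := by
    intro u h
    refine no_chain_C hu hb hμre (S u) u ?_ ?_
    · rw [hS] at h; exact sub_eq_zero.1 h
    · rw [hS]; abel
  have hTT : ∀ u, T (T u) = 0 → T u = 0 := by
    intro u h
    refine no_chain_C hu hb (μ := -μ) (by simp [hμre]) (T u) u ?_ ?_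
    · rw [hT] at h; rw [rm_neg]; exact eq_neg_of_add_eq_zero_left h
    · rw [hT, rm_neg]; abel
  have hPP : ∀ u, minPolyAt C lam *ᵥ (minPolyAt C lam *ᵥ u) = 0 → minPolyAt C lam *ᵥ u = 0 := by
    intro u h
    have h1 : S (S (T (T u))) = 0 := by
      rw [hST (T u), ← hTS (T u), hST u, hST, h]
    have h2 := hSS _ h1
    rw [hST (T u), ← hTS (T u), hST u, ← hTS u] at h2
    rw [← hTS u]
    exact hTT _ h2
  have hPN : ∀ (N : ℕ) u, (minPolyAt C lam ^ N) *ᵥ u = 0 → minPolyAt C lam *ᵥ u = 0 := by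
    intro N
    induction N with
    | zero => intro u h; rw [pow_zero, one_mulVec] at h; rw [h, mulVec_zero]
    | succ N ih => intro u h; rw [pow_succ, ← mulVec_mulVec] at h; exact hPP u (ih _ h)
  have hK : Kᴴ = K := GC_conjT hA hu
  have hreal : ∀ v : Fin (l + 1) × Fin n → Q, star v ⬝ᵥ (K *ᵥ v) = ((ip v (K *ᵥ v) : ℝ) : Q) := by
    intro v
    rw [ip_apply, ← Quaternion.star_eq_self, ← star_dotProduct_star, star_star,
      star_dot_mulVec, hK]
  have hdec : ∀ v ∈ rootSubspace C lam, v ≠ 0 → ∃ x y : Fin n → Q, Mop (l + 1) A μ x = 0 ∧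
      Mop (l + 1) A μ y = 0 ∧ (x ≠ 0 ∨ y ≠ 0) ∧
      ip v (K *ᵥ v) = ip x (Dop (l + 1) A μ x) + ip y (Dop (l + 1) A μ y) := by
    intro v hv hv0
    have h1 : C *ᵥ (C *ᵥ v) = -(ω ^ 2) • v := by
      have := hPN _ v hv
      rw [hP] at this
      rw [neg_smul]; exact eq_neg_of_add_eq_zero_left this
    have hω2 : (ω ^ 2)⁻¹ * ω ^ 2 = 1 := inv_mul_cancel₀ (by positivity)
    set a := (1 / 2 : ℝ) • (v - (ω ^ 2)⁻¹ • rm μ (C *ᵥ v)) with ha
    set b := (1 / 2 : ℝ) • (v + (ω ^ 2)⁻¹ • rm μ (C *ᵥ v)) with hb'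
    have hab : v = a + b := by
      rw [ha, hb', ← smul_add, sub_add_add_cancel, ← two_smul ℝ v, smul_smul]; simp
    have hCa : C *ᵥ a = rm μ a := by
      rw [ha, mulVec_smul, map_smul, mulVec_sub, map_sub, mulVec_smul, map_smul, mulVec_rm, h1, hμμ,
        map_smul, smul_smul, smul_smul, mul_neg, hω2]
      simp only [neg_smul, one_smul, sub_neg_eq_add, add_comm]
    have hCb : C *ᵥ b = -rm μ b := by
      rw [hb', mulVec_smul, map_smul, mulVec_add, map_add, mulVec_smul, map_smul, mulVec_rm, h1,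
        hμμ, map_smul, smul_smul, smul_smul, mul_neg, hω2, ← smul_neg]
      simp only [neg_smul, one_smul, neg_add_rev, neg_neg]
    have hCbj : C *ᵥ rm qj b = rm μ (rm qj b) := by
      rw [mulVec_rm, hCb, map_neg, rm_rm, rm_rm, ← rm_neg, hμdef, smul_mul_assoc, qi_qj,
        mul_smul_comm, smul_neg, neg_neg]
    have hcross : ip a (K *ᵥ b) = 0 := by
      have e1 : ip a (K *ᵥ b) = -ip a (gmat (l + 1) A *ᵥ rm μ b) := by
        rw [hKdef, ← mulVec_mulVec, hCb, mulVec_neg, map_neg]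
      have e2 : ip a (K *ᵥ b) = ip a (gmat (l + 1) A *ᵥ rm μ b) := by
        rw [← hK, ← ip_mulVec, hKdef, ← mulVec_mulVec, hCa, mulVec_rm, ip_rm, hstar, ip_mulVec,
          gmat_conjT hA, rm_neg, neg_mulVec, mulVec_neg, neg_neg]
      linarith
    have hcross' : ip b (K *ᵥ a) = 0 := by rw [ip_symm, ip_mulVec, hK, hcross]
    have hbj : ip (rm qj b) (K *ᵥ rm qj b) = ip b (K *ᵥ b) := by
      rw [mulVec_rm, ip_rm, rm_rm, qj_star_qj, rm_one]
    refine ⟨blk a 0, blk (rm qj b) 0, by rw [Mop_apply]; exact eig_sum hu μ a hCa,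
      by rw [Mop_apply]; exact eig_sum hu μ _ hCbj, ?_, ?_⟩
    · by_contra hcon
      push Not at hcon
      apply hv0
      rw [hab, eig_zero A μ a hCa hcon.1, rm_eq_zero qj_ne (eig_zero A μ _ hCbj hcon.2), add_zero]
    · rw [← form_eig A hstar a hCa, ← form_eig A hstar _ hCbj, ← hCdef, ← hKdef, hbj]
      conv_lhs => rw [hab]
      simp only [mulVec_add, map_add, LinearMap.add_apply, hcross, hcross']
      ring
  rcases definite hl hA hs hω with h | h
  · left
    intro v hv hv0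
    refine ⟨_, ?_, hreal v⟩
    obtain ⟨x, y, hx, hy, hxy, e⟩ := hdec v hv hv0
    have hle : ∀ z, Mop (l + 1) A μ z = 0 → 0 ≤ ip z (Dop (l + 1) A μ z) := by
      intro z hz
      by_cases h0 : z = 0
      · simp [h0]
      · exact (h z hz h0).le
    rw [e]
    rcases hxy with h0 | h0
    · linarith [h x hx h0, hle y hy]
    · linarith [h y hy h0, hle x hx]
  · right
    intro v hv hv0
    refine ⟨_, ?_, hreal v⟩
    obtain ⟨x, y, hx, hy, hxy, e⟩ := hdec v hv hv0
    have hle : ∀ z, Mop (l + 1) A μ z = 0 → ip z (Dop (l + 1) A μ z) ≤ 0 := by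
      intro z hz
      by_cases h0 : z = 0
      · simp [h0]
      · exact (h z hz h0).le
    rw [e]
    rcases hxy with h0 | h0
    · linarith [h x hx h0, hle y hy]
    · linarith [h y hy h0, hle x hx]

end Pool.Agent.H63Z.QODE
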